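import Pool.Agent.Q181.TG.Stm3

set_option autoImplicit false

namespace Pool.Agent.Q86.TG

open Pool.Agent.Q181.TG Matrix Filter Topology

theorem t_avg : S_avg := by
  classical
  intro f lam hf X _ _ σ hσ
  have hlim : Tendsto (fun m : ℕ => |f m / m - lam|) atTop (𝓝 |lam - lam|) :=
    (hf.sub_const lam).abs
  obtain ⟨C, hC⟩ := hlim.bddAbove_range
  have hC' : ∀ m : ℕ, |f m / m - lam| ≤ C := fun m => hC ⟨m, rfl⟩
  have hC0 : 0 ≤ C := (abs_nonneg _).trans (hC' 0)
  rw [Metric.tendsto_atTop]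
  intro ε hε
  obtain ⟨M, hM⟩ := Metric.tendsto_atTop.1 hf (ε / 2) (by positivity)
  have hfix : Tendsto (fun n => ∑ k ∈ Finset.Ico 1 M,
      (Nat.card {x : X n // (σ n ^ k) x = x} : ℝ) / Nat.card (X n)) atTop (𝓝 0) := by
    have := tendsto_finsetSum (Finset.Ico 1 M)
      (fun k hk => hσ k (Finset.mem_Ico.1 hk).1)
    simpa using this
  obtain ⟨N, hN⟩ := Metric.tendsto_atTop.1 hfix (ε / 2 / (C + 1)) (by positivity)
  refine ⟨N, fun n hn => ?_⟩
  have hXpos : (0 : ℝ) < Nat.card (X n) := by exact_mod_cast Nat.card_pos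
  have h1 : ∀ x : X n, |f (Function.minimalPeriod (σ n) x) / Function.minimalPeriod (σ n) x - lam| ≤
      ε / 2 + C * ∑ k ∈ Finset.Ico 1 M, (if (σ n ^ k) x = x then (1 : ℝ) else 0) := by
    intro x
    have hs : 0 ≤ ∑ k ∈ Finset.Ico 1 M, (if (σ n ^ k) x = x then (1 : ℝ) else 0) :=
      Finset.sum_nonneg fun k _ => by split_ifs <;> norm_num
    by_cases hx : M ≤ Function.minimalPeriod (σ n) x
    · have h2 := hM _ hx
      rw [Real.dist_eq] at h2
      have h3 := mul_nonneg hC0 hs
      linarith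
    · push Not at hx
      have hpos : 0 < Function.minimalPeriod (σ n) x :=
        Function.minimalPeriod_pos_of_mem_periodicPts
          ((σ n).injective.mem_periodicPts x)
      have hper : (σ n ^ (Function.minimalPeriod (σ n) x)) x = x := by
        rw [← Equiv.Perm.iterate_eq_pow]
        exact Function.iterate_minimalPeriod
      have h2 : (1 : ℝ) ≤ ∑ k ∈ Finset.Ico 1 M, (if (σ n ^ k) x = x then (1 : ℝ) else 0) := by
        have h3 := Finset.single_le_sum (s := Finset.Ico 1 M)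
          (f := fun k => if (σ n ^ k) x = x then (1 : ℝ) else 0)
          (fun k _ => by split_ifs <;> norm_num)
          (Finset.mem_Ico.2 ⟨hpos, hx⟩)
        simp only [hper, if_true] at h3
        exact h3
      have h3 := hC' (Function.minimalPeriod (σ n) x)
      nlinarith
  have h2 : ∑ x : X n, |f (Function.minimalPeriod (σ n) x) / Function.minimalPeriod (σ n) x - lam| ≤
      Nat.card (X n) * (ε / 2) + C * ∑ k ∈ Finset.Ico 1 M, (Nat.card {x : X n // (σ n ^ k) x = x} : ℝ) := by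
    refine (Finset.sum_le_sum fun x _ => h1 x).trans ?_
    rw [Finset.sum_add_distrib, Finset.sum_const, Finset.card_univ, nsmul_eq_mul,
      ← Finset.mul_sum, Finset.sum_comm, Nat.card_eq_fintype_card]
    refine add_le_add_right (mul_le_mul_of_nonneg_left (le_of_eq ?_) hC0) _
    refine Finset.sum_congr rfl fun k _ => ?_
    rw [Finset.sum_boole, Nat.card_eq_fintype_card, Fintype.card_subtype]
  have h3 := hN n hn
  rw [Real.dist_eq, sub_zero, ← Finset.sum_div] at h3
  have h4 : (∑ k ∈ Finset.Ico 1 M, (Nat.card {x : X n // (σ n ^ k) x = x} : ℝ)) / Nat.card (X n) <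
      ε / 2 / (C + 1) := lt_of_le_of_lt (le_abs_self _) h3
  have h5 : 0 ≤ (∑ k ∈ Finset.Ico 1 M, (Nat.card {x : X n // (σ n ^ k) x = x} : ℝ)) / Nat.card (X n) := by
    positivity
  rw [Real.dist_eq]
  have h6 : (∑ x, f (Function.minimalPeriod (σ n) x) / Function.minimalPeriod (σ n) x) / Nat.card (X n) - lam =
      (∑ x, (f (Function.minimalPeriod (σ n) x) / Function.minimalPeriod (σ n) x - lam)) / Nat.card (X n) := by
    rw [Finset.sum_sub_distrib, Finset.sum_const, Finset.card_univ, nsmul_eq_mul, sub_div,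
      ← Nat.card_eq_fintype_card, mul_div_cancel_left₀ _ hXpos.ne']
  rw [h6, abs_div, abs_of_pos hXpos]
  have h7 : |∑ x : X n, (f (Function.minimalPeriod (σ n) x) / Function.minimalPeriod (σ n) x - lam)| /
      Nat.card (X n) ≤ ε / 2 + C * ((∑ k ∈ Finset.Ico 1 M,
        (Nat.card {x : X n // (σ n ^ k) x = x} : ℝ)) / Nat.card (X n)) := by
    rw [div_le_iff₀ hXpos, add_mul, mul_assoc, div_mul_cancel₀ _ hXpos.ne']
    refine (Finset.abs_sum_le_sum_abs _ _).trans (h2.trans (le_of_eq ?_))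
    ring
  have h8 : C * ((∑ k ∈ Finset.Ico 1 M,
      (Nat.card {x : X n // (σ n ^ k) x = x} : ℝ)) / Nat.card (X n)) < ε / 2 := by
    rw [lt_div_iff₀ (by positivity)] at h4
    nlinarith
  linarith

theorem t_perm : S_tc → S_cyc → S_avg → S_grow → S_perm := by
  intro _ hcyc havg hgrow E _ _ ξ η
  obtain ⟨K, hK, h⟩ := hgrow E ξ η
  refine ⟨K, hK, fun X _ _ σ hσ => ?_⟩
  have h1 := havg (fun m => Real.log (tm ξ η m)) (Real.log K) h X σ hσ
  refine h1.congr fun n => ?_
  rw [hcyc (X n) (σ n) E ξ η]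

end Pool.Agent.Q86.TG
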