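import Pool.Agent.Q86.TG.G1

set_option autoImplicit false

namespace Pool.Agent.Q86.TG

open Pool.Agent.Q181.TG Matrix Filter Topology

/-- the elements which become torsion elements modulo `R` -/
def sat {E : Type} [AddCommGroup E] (R : AddSubgroup E) : AddSubgroup E :=
  (AddCommGroup.torsion (E ⧸ R)).comap (QuotientAddGroup.mk' R)

theorem mem_sat {E : Type} [AddCommGroup E] (R : AddSubgroup E) (y : E) :
    y ∈ sat R ↔ ∃ k : ℕ, 0 < k ∧ k • y ∈ R := by
  show IsOfFinAddOrder (QuotientAddGroup.mk y : E ⧸ R) ↔ _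
  rw [isOfFinAddOrder_iff_nsmul_eq_zero]
  refine exists_congr fun k => and_congr_right fun _ => ?_
  rw [← QuotientAddGroup.mk_nsmul, QuotientAddGroup.eq_zero_iff]

theorem tc_sat {E : Type} [AddCommGroup E] (R : AddSubgroup E) :
    tc (E ⧸ R) = R.relIndex (sat R) := by
  have h := AddSubgroup.relIndex_ker (QuotientAddGroup.mk' R) (K := sat R)
  rw [QuotientAddGroup.ker_mk'] at h
  rw [h, tc, sat, AddSubgroup.map_comap_eq_self_of_surjective (QuotientAddGroup.mk'_surjective R)]

theorem le_sat {E : Type} [AddCommGroup E] (R : AddSubgroup E) : R ≤ sat R := by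
  intro y hy
  rw [mem_sat]
  exact ⟨1, one_pos, by rwa [one_smul]⟩

/-- a cyclic relation with coprime coefficients -/
theorem cyc_rel {Q : Type} [AddCommGroup Q] (a b : ℤ) (m : ℕ) [NeZero m] (n : ℤ)
    (hn : n = a ^ m - (-b) ^ m) (ε : ZMod m → Q) (hrel : ∀ j, a • ε j = (-b) • ε (j + 1))
    (B t : ℤ) (hB : B * b + t * n = 1) :
    (∀ j, n • ε j = 0) ∧ ∀ (y : ZMod m → ℤ), ∑ j, y j • ε j = (∑ j, y j * (-(a * B)) ^ j.val) • ε 0 := by
  have hpow : ∀ (k : ℕ) (j : ZMod m), (a ^ k) • ε j = ((-b) ^ k) • ε (j + k) := by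
    intro k
    induction k with
    | zero => intro j; simp
    | succ k ih =>
      intro j
      rw [pow_succ' a, mul_smul, ih, smul_comm, hrel, smul_smul, ← pow_succ]
      congr 2
      push_cast
      ring
  have hn0 : ∀ j, n • ε j = 0 := by
    intro j
    have := hpow m j
    rw [ZMod.natCast_self, add_zero] at this
    rw [hn, sub_smul, this, sub_self]
  have hUε : ∀ j, ε (j + 1) = (-(a * B)) • ε j := by
    intro j
    calc ε (j + 1) = (1 : ℤ) • ε (j + 1) := (one_smul _ _).symm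
      _ = (B * b + t * n) • ε (j + 1) := by rw [hB]
      _ = B • (b • ε (j + 1)) + t • (n • ε (j + 1)) := by rw [add_smul, mul_smul, mul_smul]
      _ = B • (b • ε (j + 1)) := by rw [hn0, smul_zero, add_zero]
      _ = B • (-(a • ε j)) := by rw [hrel, neg_smul, neg_neg]
      _ = (-(a * B)) • ε j := by rw [smul_neg, smul_smul, neg_smul, mul_comm]
  have hUpow : ∀ k : ℕ, ε (k : ZMod m) = ((-(a * B)) ^ k) • ε 0 := by
    intro k
    induction k with
    | zero => simp
    | succ k ih => rw [Nat.cast_succ, hUε, ih, smul_smul, pow_succ']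
  refine ⟨hn0, fun y => ?_⟩
  rw [Finset.sum_smul]
  refine Finset.sum_congr rfl fun j _ => ?_
  have h4 := hUpow j.val
  rw [ZMod.natCast_zmod_val] at h4
  rw [h4, smul_smul]

/-- the order of the torsion for coprime `a`, `b` -/
theorem tm_coprime (a b : ℤ) (hab : IsCoprime a b) (m : ℕ) [NeZero m] (n : ℤ)
    (hn : n = a ^ m - (-b) ^ m) :
    tm a b m = if n = 0 then 1 else n.natAbs := by
  classical
  have hm : m ≠ 0 := NeZero.ne m
  set R := Qr (ZMod m) (fun j => j + 1) a b with hR
  -- the classes of the basis elements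
  let ε : ZMod m → (ZMod m → ℤ) ⧸ R := fun j => QuotientAddGroup.mk (Pi.single j 1)
  have hsing : ∀ (j : ZMod m) (k : ℤ), (QuotientAddGroup.mk (Pi.single j k) : (ZMod m → ℤ) ⧸ R) = k • ε j := by
    intro j k
    show _ = k • (QuotientAddGroup.mk (Pi.single j 1) : (ZMod m → ℤ) ⧸ R)
    rw [← QuotientAddGroup.mk_zsmul, ← Pi.single_smul, smul_eq_mul, mul_one]
  have hrel : ∀ j, a • ε j = (-b) • ε (j + 1) := by
    intro j
    rw [neg_smul, eq_neg_iff_add_eq_zero, ← hsing, ← hsing, ← QuotientAddGroup.mk_add,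
      QuotientAddGroup.eq_zero_iff, hR, mem_Qr_zmod]
    refine ⟨Pi.single j 1, fun z => ?_⟩
    simp only [Pi.add_apply, Pi.single_apply, sub_eq_iff_eq_add, ite_smul, one_smul, zero_smul]
  have hcop : IsCoprime b n := by
    obtain ⟨k, rfl⟩ : ∃ k, m = k + 1 := ⟨m - 1, by omega⟩
    have h1 : IsCoprime b (a ^ (k + 1)) := hab.symm.pow_right
    have h2 := h1.add_mul_left_right ((-b) ^ k)
    have h3 : n = a ^ (k + 1) + b * (-b) ^ k := by rw [hn, pow_succ (-b)]; ring
    rw [h3]
    exact h2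
  obtain ⟨B, t, hB⟩ := hcop
  obtain ⟨hn0, hsum⟩ := cyc_rel a b m n hn ε hrel B t hB
  -- the homomorphism
  set U : ZMod n.natAbs := -((a : ZMod n.natAbs) * (B : ZMod n.natAbs)) with hU
  have hnz : (n : ZMod n.natAbs) = 0 := by
    rw [ZMod.intCast_zmod_eq_zero_iff_dvd]
    exact Int.natAbs_dvd.2 (dvd_refl n)
  have hBb : (B : ZMod n.natAbs) * (b : ZMod n.natAbs) = 1 := by
    have : ((B * b + t * n : ℤ) : ZMod n.natAbs) = ((1 : ℤ) : ZMod n.natAbs) := by rw [hB]
    push_cast at this
    rw [hnz, mul_zero, add_zero] at this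
    exact this
  have hbU : (a : ZMod n.natAbs) + (b : ZMod n.natAbs) * U = 0 := by
    rw [hU]
    linear_combination (-(a : ZMod n.natAbs)) * hBb
  have hUm : U ^ m = 1 := by
    have h1 : (a : ZMod n.natAbs) ^ m = (-(b : ZMod n.natAbs)) ^ m := by
      have : ((a ^ m - (-b) ^ m : ℤ) : ZMod n.natAbs) = 0 := by rw [← hn]; exact hnz
      push_cast at this
      exact sub_eq_zero.1 this
    rw [hU, neg_pow, mul_pow, h1, ← mul_pow, ← mul_pow, ← one_pow m]
    congr 1
    linear_combination hBb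
  have hUs : ∀ x : ZMod m, U ^ (x + 1).val = U ^ x.val * U := by
    intro x
    rw [ZMod.val_add, ZMod.val_one_eq_one_mod, Nat.add_mod_mod, ← pow_eq_pow_mod _ hUm, pow_succ]
  let f : (ZMod m → ℤ) →+ ZMod n.natAbs :=
    { toFun := fun y => ∑ j, ((y j : ℤ) : ZMod n.natAbs) * U ^ j.val
      map_zero' := by simp
      map_add' := by
        intro y z
        rw [← Finset.sum_add_distrib]
        refine Finset.sum_congr rfl fun j _ => ?_
        rw [Pi.add_apply]
        push_cast
        ring }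
  have hfs : ∀ (j : ZMod m) (k : ℤ), f (Pi.single j k) = (k : ZMod n.natAbs) * U ^ j.val := by
    intro j k
    show ∑ i, (((Pi.single j k : ZMod m → ℤ) i : ℤ) : ZMod n.natAbs) * U ^ i.val = _
    rw [Finset.sum_eq_single j]
    · rw [Pi.single_eq_same]
    · intro i _ hi
      rw [Pi.single_eq_of_ne hi]
      simp
    · simp
  have hfsurj : Function.Surjective f := by
    intro z
    refine ⟨Pi.single 0 (z.cast : ℤ), ?_⟩
    rw [hfs, ZMod.val_zero, pow_zero, mul_one]
    exact ZMod.intCast_zmod_cast z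
  have hker : f.ker = R := by
    apply le_antisymm
    · intro y hy
      have hy' : f y = 0 := hy
      set K : ℤ := ∑ j, y j * (-(a * B)) ^ j.val with hK
      have h1 : (QuotientAddGroup.mk y : (ZMod m → ℤ) ⧸ R) = K • ε 0 := by
        have h2 : y = ∑ j, Pi.single j (y j) := (Finset.univ_sum_single y).symm
        have h3 : (QuotientAddGroup.mk y : (ZMod m → ℤ) ⧸ R) = ∑ j, y j • ε j := by
          conv_lhs => rw [h2]
          rw [← QuotientAddGroup.mk'_apply, map_sum]
          exact Finset.sum_congr rfl fun j _ => hsing j (y j)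
        rw [h3, hK]
        exact hsum y
      have h5 : ((K : ℤ) : ZMod n.natAbs) = 0 := by
        rw [← hy', hK]
        show _ = ∑ j, ((y j : ℤ) : ZMod n.natAbs) * U ^ j.val
        rw [hU]
        push_cast
        rfl
      obtain ⟨q, hq⟩ := (ZMod.intCast_zmod_eq_zero_iff_dvd _ _).1 h5
      have h6 : (n.natAbs : ℤ) • ε 0 = 0 := by
        rcases Int.natAbs_eq n with h7 | h7
        · rw [← h7]; exact hn0 0
        · have h8 : (n.natAbs : ℤ) = -n := by linarith
          rw [h8, neg_smul, hn0, neg_zero]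
      rw [← QuotientAddGroup.eq_zero_iff, h1, hq, mul_comm, mul_smul, h6, smul_zero]
    · rw [hR, Qr, AddSubgroup.closure_le]
      rintro _ ⟨x, rfl⟩
      show f _ = 0
      have h1 : ∀ (inst : DecidableEq (ZMod m)) (j : ZMod m) (k : ℤ), f (@Pi.single (ZMod m) (fun _ => ℤ) _ inst j k) =
          (k : ZMod n.natAbs) * U ^ j.val := by
        intro inst j k
        exact (congrArg (fun i : DecidableEq (ZMod m) =>
          f (@Pi.single (ZMod m) (fun _ => ℤ) _ i j k)) (Subsingleton.elim inst _)).trans (hfs j k)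
      rw [map_add, h1, h1, hUs]
      linear_combination (U ^ x.val) * hbU
  have h1 : tm a b m = Nat.card ((sat R).map f) := by
    show tc ((ZMod m → ℤ) ⧸ R) = _
    rw [tc_sat, ← hker, AddSubgroup.relIndex_ker]
  rw [h1]
  by_cases h0 : n = 0
  · rw [if_pos h0]
    have h2 : (sat R).map f = ⊥ := by
      rw [eq_bot_iff]
      rintro _ ⟨y, hy, rfl⟩
      obtain ⟨k, hk, hky⟩ := (mem_sat R y).1 hy
      rw [← hker] at hky
      have h3 : k • f y = 0 := by rw [← map_nsmul]; exact hky
      have h4 : ∀ (N : ℕ), N = 0 → ∀ z : ZMod N, k • z = 0 → z = 0 := by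
        rintro _ rfl z hz
        have hz' : (k • (z : ℤ)) = 0 := hz
        rcases smul_eq_zero.1 hz' with h5 | h5
        · omega
        · exact h5
      exact h4 n.natAbs (by rw [h0]; rfl) _ h3
    rw [h2]
    exact AddSubgroup.card_bot
  · rw [if_neg h0]
    have h2 : (sat R).map f = ⊤ := by
      rw [eq_top_iff]
      rintro z -
      obtain ⟨y, rfl⟩ := hfsurj z
      refine ⟨y, (mem_sat R y).2 ⟨n.natAbs, Int.natAbs_pos.2 h0, ?_⟩, rfl⟩
      rw [← hker]
      show f _ = 0
      rw [map_nsmul, nsmul_eq_mul, ZMod.natCast_self, zero_mul]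
    rw [h2, AddSubgroup.card_top, Nat.card_zmod]

/-- common factors -/
theorem tm_gcd (a b : ℤ) (hab : IsCoprime a b) (m : ℕ) [NeZero m] (g : ℕ) (hg : 1 ≤ g) :
    ∃ ρ : ℕ, tm (g * a) (g * b) m = ρ * tm a b m ∧ ρ ≤ g ^ m ∧ g ^ m ≤ ρ * g := by
  classical
  have hm : m ≠ 0 := NeZero.ne m
  have hg0 : (g : ℤ) ≠ 0 := by positivity
  have : NeZero g := ⟨by omega⟩
  set R' := Qr (ZMod m) (fun j => j + 1) a b with hR'
  set R := Qr (ZMod m) (fun j => j + 1) ((g : ℤ) * a) ((g : ℤ) * b) with hR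
  have hmul : ∀ y, y ∈ R' → (g : ℤ) • y ∈ R := by
    intro y hy
    obtain ⟨c, hc⟩ := (mem_Qr_zmod m _ _ _).1 hy
    refine (mem_Qr_zmod m _ _ _).2 ⟨c, fun j => ?_⟩
    rw [Pi.smul_apply, hc]
    simp only [smul_eq_mul]
    ring
  have hle : R ≤ R' := by
    intro y hy
    obtain ⟨c, hc⟩ := (mem_Qr_zmod m _ _ _).1 hy
    refine (mem_Qr_zmod m _ _ _).2 ⟨fun j => g * c j, fun j => ?_⟩
    rw [hc]
    simp only [smul_eq_mul]
    ring
  have hsat : sat R = sat R' := by
    ext y
    rw [mem_sat, mem_sat]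
    constructor
    · rintro ⟨k, hk, h⟩
      exact ⟨k, hk, hle h⟩
    · rintro ⟨k, hk, h⟩
      refine ⟨g * k, Nat.mul_pos hg hk, ?_⟩
      have := hmul _ h
      rwa [natCast_zsmul, smul_smul] at this
  refine ⟨R.relIndex R', ?_, ?_, ?_⟩
  · show tc ((ZMod m → ℤ) ⧸ R) = R.relIndex R' * tc ((ZMod m → ℤ) ⧸ R')
    rw [tc_sat, tc_sat, hsat, AddSubgroup.relIndex_mul_relIndex R R' (sat R') hle (le_sat R')]
  · -- upper bound
    have h := AddSubgroup.relIndex_ker (QuotientAddGroup.mk' R) (K := R')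
    rw [QuotientAddGroup.ker_mk'] at h
    rw [h]
    have hcard : Nat.card (ZMod m → ZMod g) = g ^ m := by
      rw [Nat.card_fun, Nat.card_zmod, Nat.card_zmod]
    rw [← hcard]
    let φ : (ZMod m → ℤ) → (ZMod m → ℤ) := fun c j => c j • a + c (j - 1) • b
    have hφ : ∀ c, φ c ∈ R' := fun c => (mem_Qr_zmod m _ _ _).2 ⟨c, fun j => rfl⟩
    refine Nat.card_le_card_of_surjective
      (fun c : ZMod m → ZMod g => (⟨QuotientAddGroup.mk (φ fun j => ((c j).val : ℤ)),
        ⟨φ fun j => ((c j).val : ℤ), hφ _, rfl⟩⟩ : R'.map (QuotientAddGroup.mk' R))) ?_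
    rintro ⟨_, y, hy, rfl⟩
    obtain ⟨c, hc⟩ := (mem_Qr_zmod m _ _ _).1 hy
    refine ⟨fun j => ((c j : ℤ) : ZMod g), ?_⟩
    apply Subtype.ext
    show (QuotientAddGroup.mk (φ fun j => ((((c j : ℤ) : ZMod g)).val : ℤ)) : (ZMod m → ℤ) ⧸ R) =
      QuotientAddGroup.mk y
    rw [QuotientAddGroup.eq]
    have h5 : ∀ j, ∃ e : ℤ, c j - ((((c j : ℤ) : ZMod g)).val : ℤ) = g * e := by
      intro j
      have : ((c j - ((((c j : ℤ) : ZMod g)).val : ℤ) : ℤ) : ZMod g) = 0 := by
        rw [Int.cast_sub, Int.cast_natCast, ZMod.natCast_zmod_val, sub_self]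
      exact (ZMod.intCast_zmod_eq_zero_iff_dvd _ _).1 this
    choose e he using h5
    refine (mem_Qr_zmod m _ _ _).2 ⟨e, fun j => ?_⟩
    rw [Pi.add_apply, Pi.neg_apply, hc]
    simp only [φ, smul_eq_mul]
    linear_combination a * he j + b * he (j - 1)
  · -- lower bound
    have h := AddSubgroup.relIndex_ker (QuotientAddGroup.mk' R) (K := R')
    rw [QuotientAddGroup.ker_mk'] at h
    rw [h]
    have hcard : Nat.card (ZMod m → ZMod g) = g ^ m := by
      rw [Nat.card_fun, Nat.card_zmod, Nat.card_zmod]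
    let φ : (ZMod m → ℤ) → (ZMod m → ℤ) := fun c j => c j • a + c (j - 1) • b
    have hφ : ∀ c, φ c ∈ R' := fun c => (mem_Qr_zmod m _ _ _).2 ⟨c, fun j => rfl⟩
    have hfin : Finite (R'.map (QuotientAddGroup.mk' R)) := by
      refine Finite.of_surjective
        (fun c : ZMod m → ZMod g => (⟨QuotientAddGroup.mk (φ fun j => ((c j).val : ℤ)),
          ⟨φ fun j => ((c j).val : ℤ), hφ _, rfl⟩⟩ : R'.map (QuotientAddGroup.mk' R))) ?_
      rintro ⟨_, y, hy, rfl⟩
      obtain ⟨c, hc⟩ := (mem_Qr_zmod m _ _ _).1 hy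
      refine ⟨fun j => ((c j : ℤ) : ZMod g), ?_⟩
      apply Subtype.ext
      show (QuotientAddGroup.mk (φ fun j => ((((c j : ℤ) : ZMod g)).val : ℤ)) : (ZMod m → ℤ) ⧸ R) =
        QuotientAddGroup.mk y
      rw [QuotientAddGroup.eq]
      have h5 : ∀ j, ∃ e : ℤ, c j - ((((c j : ℤ) : ZMod g)).val : ℤ) = g * e := by
        intro j
        have : ((c j - ((((c j : ℤ) : ZMod g)).val : ℤ) : ℤ) : ZMod g) = 0 := by
          rw [Int.cast_sub, Int.cast_natCast, ZMod.natCast_zmod_val, sub_self]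
        exact (ZMod.intCast_zmod_eq_zero_iff_dvd _ _).1 this
      choose e he using h5
      refine (mem_Qr_zmod m _ _ _).2 ⟨e, fun j => ?_⟩
      rw [Pi.add_apply, Pi.neg_apply, hc]
      simp only [φ, smul_eq_mul]
      linear_combination a * he j + b * he (j - 1)
    have hcg : Nat.card (ZMod g) = g := Nat.card_zmod g
    have hgoal : Nat.card (ZMod m → ZMod g) ≤
        Nat.card (R'.map (QuotientAddGroup.mk' R) × ZMod g) := by
      refine Nat.card_le_card_of_injective
        (fun c : ZMod m → ZMod g => (((⟨QuotientAddGroup.mk (φ fun j => ((c j).val : ℤ)),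
          ⟨φ fun j => ((c j).val : ℤ), hφ _, rfl⟩⟩ : R'.map (QuotientAddGroup.mk' R)), c 0) :
            R'.map (QuotientAddGroup.mk' R) × ZMod g)) ?_
      intro c c' hcc
      have h0 : c 0 = c' 0 := congrArg Prod.snd hcc
      have h1 : (QuotientAddGroup.mk (φ fun j => ((c j).val : ℤ)) : (ZMod m → ℤ) ⧸ R) =
          QuotientAddGroup.mk (φ fun j => ((c' j).val : ℤ)) := congrArg (fun p => p.1.1) hcc
      rw [QuotientAddGroup.eq] at h1
      obtain ⟨d, hd⟩ := (mem_Qr_zmod m _ _ _).1 h1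
      let v : ZMod m → ℤ := fun j => ((c' j).val : ℤ) - ((c j).val : ℤ) - g * d j
      have hv : ∀ j, a * v j = (-b) * v (j - 1) := by
        intro j
        have := hd j
        simp only [φ, Pi.add_apply, Pi.neg_apply, smul_eq_mul] at this
        simp only [v]
        linear_combination this
      have hv0 : (g : ℤ) ∣ v 0 := ⟨-d 0, by simp only [v]; rw [h0]; ring⟩
      have hall : ∀ j, (g : ℤ) ∣ v j := by
        by_cases hn : a ^ m - (-b) ^ m = 0
        · have hu : IsUnit a := by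
            have h2 : a ∣ (-b) ^ m := by
              rw [← sub_eq_zero.1 hn]
              exact dvd_pow_self a hm
            have h3 : IsCoprime a ((-b) ^ m) := (hab.neg_right).pow_right
            exact h3.isUnit_of_dvd' (dvd_refl a) h2
          have hnat : ∀ k : ℕ, (g : ℤ) ∣ v (k : ZMod m) := by
            intro k
            induction k with
            | zero => simpa using hv0
            | succ k ih =>
              have h2 := hv ((k + 1 : ℕ) : ZMod m)
              rw [Nat.cast_succ, add_sub_cancel_right] at h2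
              have h3 : (g : ℤ) ∣ a * v ((k : ZMod m) + 1) := by
                rw [h2]; exact Dvd.dvd.mul_left ih _
              rw [Nat.cast_succ]
              exact (hu.dvd_mul_left).1 h3
          intro j
          have := hnat j.val
          rwa [ZMod.natCast_zmod_val] at this
        · have hk : ∀ (k : ℕ) (j : ZMod m), a ^ k * v (j + k) = (-b) ^ k * v j := by
            intro k
            induction k with
            | zero => intro j; simp
            | succ k ih =>
              intro j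
              have h2 := hv (j + (k + 1 : ℕ))
              have h3 : j + ((k + 1 : ℕ) : ZMod m) - 1 = j + k := by push_cast; ring
              rw [h3] at h2
              have h4 := ih j
              linear_combination a ^ k * h2 - b * h4
          intro j
          have h2 := hk m j
          rw [ZMod.natCast_self, add_zero] at h2
          have h3 : (a ^ m - (-b) ^ m) * v j = 0 := by linear_combination h2
          rw [(mul_eq_zero.1 h3).resolve_left hn]
          exact dvd_zero _
      funext j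
      obtain ⟨w, hw⟩ := hall j
      have h2 : (((c' j).val : ℤ) : ZMod g) - (((c j).val : ℤ) : ZMod g) = 0 := by
        have h3 : ((c' j).val : ℤ) - ((c j).val : ℤ) = g * (d j + w) := by
          simp only [v] at hw
          linear_combination hw
        rw [← Int.cast_sub, h3, Int.cast_mul, Int.cast_natCast, ZMod.natCast_self, zero_mul]
      rw [Int.cast_natCast, Int.cast_natCast, ZMod.natCast_zmod_val, ZMod.natCast_zmod_val] at h2
      exact (sub_eq_zero.1 h2).symm
    rw [Nat.card_prod, hcard, hcg] at hgoal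
    exact hgoal

theorem pow_gap (μ M k : ℕ) (h : μ + 1 ≤ M) : μ ^ (k + 1) + M ^ k ≤ M ^ (k + 1) := by
  have h1 : μ ^ k ≤ M ^ k := Nat.pow_le_pow_left (by omega) k
  calc μ ^ (k + 1) + M ^ k = μ ^ k * μ + M ^ k := by rw [pow_succ]
    _ ≤ M ^ k * μ + M ^ k := by gcongr
    _ = M ^ k * (μ + 1) := by ring
    _ ≤ M ^ k * M := by gcongr
    _ = M ^ (k + 1) := by rw [pow_succ]

theorem tm_bounds (a b : ℤ) (hab : IsCoprime a b) (m : ℕ) (hm : 1 ≤ m) :
    (max a.natAbs b.natAbs) ^ m ≤ tm a b m * max a.natAbs b.natAbs ∧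
      tm a b m ≤ 2 * (max a.natAbs b.natAbs) ^ m := by
  have : NeZero m := ⟨by omega⟩
  obtain ⟨k, rfl⟩ : ∃ k, m = k + 1 := ⟨m - 1, by omega⟩
  set n : ℤ := a ^ (k + 1) - (-b) ^ (k + 1) with hn
  rw [tm_coprime a b hab (k + 1) n hn]
  have hb' : ((-b) ^ (k + 1)).natAbs = b.natAbs ^ (k + 1) := by
    rw [Int.natAbs_pow, Int.natAbs_neg]
  have ha' : (a ^ (k + 1)).natAbs = a.natAbs ^ (k + 1) := Int.natAbs_pow _ _
  have hg1 : Int.gcd a b = 1 := Int.isCoprime_iff_gcd_eq_one.1 hab
  have heq : a.natAbs = b.natAbs → a.natAbs = 1 := by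
    intro h
    rw [Int.gcd, h, Nat.gcd_self] at hg1
    rw [h, hg1]
  by_cases h0 : n = 0
  · rw [if_pos h0]
    have h1 : a.natAbs ^ (k + 1) = b.natAbs ^ (k + 1) := by
      rw [← ha', ← hb', sub_eq_zero.1 h0]
    have h2 : a.natAbs = b.natAbs := Nat.pow_left_injective (n := k + 1) (by omega) h1
    rw [← h2, max_self, heq h2]
    simp
  · rw [if_neg h0]
    have hn1 : 1 ≤ n.natAbs := Int.natAbs_pos.2 h0
    have h1 : a.natAbs ^ (k + 1) ≤ n.natAbs + b.natAbs ^ (k + 1) := by
      rw [← ha', ← hb']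
      have : a ^ (k + 1) = n + (-b) ^ (k + 1) := by rw [hn]; ring
      rw [this]
      exact Int.natAbs_add_le _ _
    have h2 : b.natAbs ^ (k + 1) ≤ n.natAbs + a.natAbs ^ (k + 1) := by
      rw [← ha', ← hb']
      have : (-b) ^ (k + 1) = -n + a ^ (k + 1) := by rw [hn]; ring
      rw [this]
      refine (Int.natAbs_add_le _ _).trans ?_
      rw [Int.natAbs_neg]
    have h3 : n.natAbs ≤ a.natAbs ^ (k + 1) + b.natAbs ^ (k + 1) := by
      rw [← ha', ← hb', hn, sub_eq_add_neg]
      refine (Int.natAbs_add_le _ _).trans ?_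
      rw [Int.natAbs_neg]
    constructor
    · rcases lt_trichotomy a.natAbs b.natAbs with h | h | h
      · rw [max_eq_right h.le]
        have h4 := pow_gap a.natAbs b.natAbs k h
        have h5 : b.natAbs ^ k ≤ n.natAbs := by omega
        calc b.natAbs ^ (k + 1) = b.natAbs ^ k * b.natAbs := pow_succ _ _
          _ ≤ n.natAbs * b.natAbs := Nat.mul_le_mul_right _ h5
      · rw [← h, max_self, heq h]
        simpa using hn1
      · rw [max_eq_left h.le]
        have h4 := pow_gap b.natAbs a.natAbs k h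
        have h5 : a.natAbs ^ k ≤ n.natAbs := by omega
        calc a.natAbs ^ (k + 1) = a.natAbs ^ k * a.natAbs := pow_succ _ _
          _ ≤ n.natAbs * a.natAbs := Nat.mul_le_mul_right _ h5
    · have h4 : a.natAbs ^ (k + 1) ≤ (max a.natAbs b.natAbs) ^ (k + 1) :=
        Nat.pow_le_pow_left (le_max_left _ _) _
      have h5 : b.natAbs ^ (k + 1) ≤ (max a.natAbs b.natAbs) ^ (k + 1) :=
        Nat.pow_le_pow_left (le_max_right _ _) _
      omega

theorem t_bin : S_bin := by
  intro a b hab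
  have hgpos : 0 < Int.gcd a b := by
    rw [Int.gcd_pos_iff]
    by_contra h
    push Not at h
    exact hab h
  obtain ⟨a', b', h1, ha, hb⟩ := Int.exists_gcd_one hgpos
  set g := Int.gcd a b with hg
  have hcop : IsCoprime a' b' := Int.isCoprime_iff_gcd_eq_one.2 h1
  have hmax : max a.natAbs b.natAbs = g * max a'.natAbs b'.natAbs := by
    rw [ha, hb, Int.natAbs_mul, Int.natAbs_mul, Int.natAbs_natCast, mul_comm _ g, mul_comm _ g,
      Nat.mul_max_mul_left]
  set M := max a'.natAbs b'.natAbs with hM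
  have hMpos : 1 ≤ M := by
    by_contra h
    have h2 : M = 0 := by omega
    have h3 : a'.natAbs = 0 := by have := le_max_left a'.natAbs b'.natAbs; omega
    have h4 : b'.natAbs = 0 := by have := le_max_right a'.natAbs b'.natAbs; omega
    rw [Int.natAbs_eq_zero] at h3 h4
    apply hab
    rw [ha, hb, h3, h4]
    simp
  rw [hmax]
  refine lin _ _ (Real.log 2 + Real.log ((g * M : ℕ) : ℝ)) ?_
  filter_upwards [eventually_ge_atTop 1] with m hm
  have : NeZero m := ⟨by omega⟩
  obtain ⟨ρ, hρ, hρ1, hρ2⟩ := tm_gcd a' b' hcop m g hgpos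
  have hab' : tm a b m = tm (g * a') (g * b') m := by rw [mul_comm (g : ℤ) a', mul_comm (g : ℤ) b', ← ha, ← hb]
  obtain ⟨hb1, hb2⟩ := tm_bounds a' b' hcop m hm
  rw [← hM] at hb1 hb2
  have hlow : (g * M) ^ m ≤ tm a b m * (g * M) := by
    rw [hab', hρ, mul_pow]
    calc g ^ m * M ^ m ≤ (ρ * g) * (tm a' b' m * M) := Nat.mul_le_mul hρ2 hb1
      _ = ρ * tm a' b' m * (g * M) := by ring
  have hup : tm a b m ≤ 2 * (g * M) ^ m := by
    rw [hab', hρ, mul_pow]
    calc ρ * tm a' b' m ≤ g ^ m * (2 * M ^ m) := Nat.mul_le_mul hρ1 hb2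
      _ = 2 * (g ^ m * M ^ m) := by ring
  have hgM : 1 ≤ g * M := Nat.mul_pos hgpos hMpos
  have htpos : 1 ≤ tm a b m := by
    rcases Nat.eq_zero_or_pos (tm a b m) with h0 | h0
    · rw [h0, zero_mul] at hlow
      have : 0 < (g * M) ^ m := pow_pos hgM m
      omega
    · exact h0
  have hgMr : (0 : ℝ) < ((g * M : ℕ) : ℝ) := by exact_mod_cast hgM
  have htr : (0 : ℝ) < (tm a b m : ℝ) := by exact_mod_cast htpos
  have e1 : (m : ℝ) * Real.log ((g * M : ℕ) : ℝ) ≤ Real.log (tm a b m) + Real.log ((g * M : ℕ) : ℝ) := by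
    rw [← Real.log_pow, ← Real.log_mul htr.ne' hgMr.ne']
    exact Real.log_le_log (by positivity) (by exact_mod_cast hlow)
  have e2 : Real.log (tm a b m) ≤ Real.log 2 + m * Real.log ((g * M : ℕ) : ℝ) := by
    rw [← Real.log_pow, ← Real.log_mul (by norm_num) (by positivity)]
    exact Real.log_le_log htr (by exact_mod_cast hup)
  have e3 : 0 ≤ Real.log 2 := Real.log_nonneg (by norm_num)
  have e4 : 0 ≤ Real.log ((g * M : ℕ) : ℝ) := Real.log_nonneg (by exact_mod_cast hgM)
  rw [abs_le]
  constructor <;> linarith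

end Pool.Agent.Q86.TG
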