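import Pool.Agent.Q181.TG.Stm1

set_option autoImplicit false

namespace Pool.Agent.Q86.TG

open Pool.Agent.Q181.BD Pool.Agent.Q181.TG

theorem t_ear2 : S_ear2 := by
  intro R L D hL hR hD hex
  have hR' : ∀ a b, R a b → R (a - L) (b - L) := by
    intro a b h
    have := hR (a - L) (b - L)
    simp only [sub_add_cancel] at this
    exact this.2 h
  have hβe : ∀ i : ℤ, ∃ b : ℤ, (∃ a, a < i ∧ R a b) ∧ ∀ z, (∃ a, a < i ∧ R a z) → z ≤ b := by
    intro i
    refine Int.exists_greatest_of_bdd ⟨i + D, ?_⟩ ?_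
    · rintro z ⟨a, ha, h⟩
      have := hD a z h
      omega
    · obtain ⟨a, b, ha, hb, h⟩ := hex i
      exact ⟨b, a, ha, h⟩
  choose β hβ using hβe
  have hβgt : ∀ i, i < β i := by
    intro i
    obtain ⟨a, b, ha, hb, h⟩ := hex i
    exact lt_of_lt_of_le hb ((hβ i).2 b ⟨a, ha, h⟩)
  have hαe : ∀ i : ℤ, ∃ a : ℤ, (a < i ∧ R a (β i)) ∧ ∀ z, (z < i ∧ R z (β i)) → z ≤ a := by
    intro i
    refine Int.exists_greatest_of_bdd ⟨i, ?_⟩ ?_
    · rintro z ⟨hz, -⟩
      exact le_of_lt hz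
    · obtain ⟨a, ha, h⟩ := (hβ i).1
      exact ⟨a, ha, h⟩
  choose α hα using hαe
  have hβL : ∀ i, β (i + L) = β i + L := by
    intro i
    apply le_antisymm
    · obtain ⟨a, ha, h⟩ := (hβ (i + L)).1
      have := (hβ i).2 (β (i + L) - L) ⟨a - L, by omega, hR' _ _ h⟩
      omega
    · obtain ⟨a, ha, h⟩ := (hβ i).1
      exact (hβ (i + L)).2 (β i + L) ⟨a + L, by omega, (hR _ _).1 h⟩
  have hαL : ∀ i, α (i + L) = α i + L := by
    intro i
    apply le_antisymm
    · obtain ⟨ha, h⟩ := (hα (i + L)).1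
      rw [hβL] at h
      have h2 := hR' _ _ h
      rw [add_sub_cancel_right] at h2
      have := (hα i).2 (α (i + L) - L) ⟨by omega, h2⟩
      omega
    · obtain ⟨ha, h⟩ := (hα i).1
      refine (hα (i + L)).2 (α i + L) ⟨by omega, ?_⟩
      rw [hβL]
      exact (hR _ _).1 h
  have hmul : ∀ (f : ℤ → ℤ), (∀ i, f (i + L) = f i + L) → ∀ (k : ℕ) (x : ℤ),
      f (x + k * L) = f x + k * L := by
    intro f hf k
    induction k with
    | zero => intro x; simp
    | succ k ih =>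
      intro x
      have : x + ((k + 1 : ℕ) : ℤ) * L = (x + k * L) + L := by push_cast; ring
      rw [this, hf, ih]
      push_cast; ring
  have hmul' : ∀ (f : ℤ → ℤ), (∀ i, f (i + L) = f i + L) → ∀ (k : ℕ) (x : ℤ),
      f (x - k * L) = f x - k * L := by
    intro f hf k x
    have := hmul f hf k (x - k * L)
    rw [sub_add_cancel] at this
    omega
  -- iterates
  have hmono : StrictMono (fun n : ℕ => β^[n] 0) := by
    apply strictMono_nat_of_lt_succ
    intro n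
    show β^[n] 0 < β^[n + 1] 0
    rw [Function.iterate_succ_apply']
    exact hβgt _
  haveI : NeZero L := ⟨by omega⟩
  obtain ⟨n, m, hnm, hc⟩ : ∃ n m : ℕ, n < m ∧ ((β^[n] 0 : ℤ) : ZMod L) = ((β^[m] 0 : ℤ) : ZMod L) := by
    obtain ⟨n, m, hne, h⟩ := Finite.exists_ne_map_eq_of_infinite
      (fun n : ℕ => ((β^[n] 0 : ℤ) : ZMod L))
    rcases lt_or_gt_of_ne hne with hl | hl
    · exact ⟨n, m, hl, h⟩
    · exact ⟨m, n, hl, h.symm⟩
  have hdvd : (L : ℤ) ∣ β^[m] 0 - β^[n] 0 :=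
    (ZMod.intCast_eq_intCast_iff_dvd_sub _ _ _).1 hc
  obtain ⟨s', hs'⟩ := hdvd
  have hlt : β^[n] 0 < β^[m] 0 := hmono hnm
  have hs'pos : 0 < s' := by
    have h1 : 0 < (L : ℤ) * s' := by omega
    have h2 : 0 < (L : ℤ) := by exact_mod_cast hL
    exact (pos_iff_pos_of_mul_pos h1).1 h2
  obtain ⟨s, rfl⟩ : ∃ s : ℕ, (s : ℤ) = s' := ⟨s'.toNat, Int.toNat_of_nonneg hs'pos.le⟩
  have hs : 1 ≤ s := by exact_mod_cast hs'pos
  obtain ⟨J, hJ⟩ : ∃ J : ℕ, m = J + n := ⟨m - n, by omega⟩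
  have hJ1 : 1 ≤ J := by omega
  set i₀ : ℤ := β^[n] 0 with hi₀
  have hper : β^[J] i₀ = i₀ + s * L := by
    have : β^[J] i₀ = β^[m] 0 := by
      rw [hi₀, ← Function.iterate_add_apply, hJ]
    rw [this]
    linarith [mul_comm (L : ℤ) s]
  -- iterates commute with translations
  have hβit : ∀ (r k : ℕ) (x : ℤ), β^[r] (x + k * L) = β^[r] x + k * L := by
    intro r k
    induction r with
    | zero => intro x; rfl
    | succ r ih =>
      intro x
      rw [Function.iterate_succ_apply', ih, hmul β hβL, Function.iterate_succ_apply']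
  have hperm : ∀ (m' n' : ℕ), β^[n' + J * m'] i₀ = β^[n'] i₀ + (m' * s : ℕ) * L := by
    intro m'
    induction m' with
    | zero => intro n'; simp
    | succ m' ih =>
      intro n'
      have h1 : n' + J * (m' + 1) = (n' + J * m') + J := by ring
      rw [h1, Function.iterate_add_apply, hper, hβit, ih]
      push_cast; ring
  let ii : ℤ → ℤ := fun j => β^[(j + J * (j.natAbs : ℤ)).toNat] i₀ - ((j.natAbs * s : ℕ) : ℤ) * L
  have key : ∀ (n' t : ℕ) (j : ℤ), (n' : ℤ) = j + J * t → ii j = β^[n'] i₀ - ((t * s : ℕ) : ℤ) * L := by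
    intro n' t j h
    show β^[(j + J * (j.natAbs : ℤ)).toNat] i₀ - ((j.natAbs * s : ℕ) : ℤ) * L = _
    have h0 : 0 ≤ j + J * (j.natAbs : ℤ) := by
      have h2 : (j.natAbs : ℤ) ≤ J * (j.natAbs : ℤ) := by
        have : (1 : ℤ) ≤ J := by exact_mod_cast hJ1
        nlinarith [Int.natCast_nonneg j.natAbs]
      have h3 : -(j.natAbs : ℤ) ≤ j := by omega
      linarith
    set n₀ := (j + J * (j.natAbs : ℤ)).toNat with hn₀
    have hn₀' : (n₀ : ℤ) = j + J * (j.natAbs : ℤ) := Int.toNat_of_nonneg h0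
    have h4 : n' + J * j.natAbs = n₀ + J * t := by
      have : ((n' + J * j.natAbs : ℕ) : ℤ) = ((n₀ + J * t : ℕ) : ℤ) := by
        push_cast
        rw [h, hn₀']
        push_cast
        ring
      exact_mod_cast this
    have h5 := hperm j.natAbs n'
    have h6 := hperm t n₀
    rw [h4, h6] at h5
    linarith
  have hex : ∀ j : ℤ, ∃ n' t : ℕ, 2 ≤ t ∧ (n' : ℤ) = j + J * t := by
    intro j
    refine ⟨(j + J * ((j.natAbs + 2 : ℕ) : ℤ)).toNat, j.natAbs + 2, by omega, Int.toNat_of_nonneg ?_⟩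
    have h2 : ((j.natAbs + 2 : ℕ) : ℤ) ≤ J * ((j.natAbs + 2 : ℕ) : ℤ) := by
      have : (1 : ℤ) ≤ J := by exact_mod_cast hJ1
      nlinarith [Int.natCast_nonneg (j.natAbs + 2)]
    have h3 : -((j.natAbs + 2 : ℕ) : ℤ) ≤ j := by omega
    linarith
  have hstep : ∀ j, ii (j + 1) = β (ii j) := by
    intro j
    obtain ⟨n', t, -, h⟩ := hex j
    rw [key n' t j h, key (n' + 1) t (j + 1) (by push_cast; rw [h]; ring),
      Function.iterate_succ_apply', hmul' β hβL]
  have hshift : ∀ j, ii (j + 2 * J) = ii j + ((2 * s : ℕ) : ℤ) * L := by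
    intro j
    obtain ⟨n', t, ht, h⟩ := hex j
    obtain ⟨t', rfl⟩ : ∃ t', t = t' + 2 := ⟨t - 2, by omega⟩
    rw [key n' (t' + 2) j h, key n' t' (j + 2 * J) (by rw [h]; push_cast; ring)]
    push_cast; ring
  refine ⟨ii, fun j => α (ii j), J, 2 * s, hJ1, by omega, ?_, ?_, ?_, hshift, ?_⟩
  · intro j
    rw [hstep]
    exact (hα (ii j)).1.2
  · intro j
    refine ⟨?_, (hα _).1.1⟩
    by_contra hcon
    push Not at hcon
    have h1 := (hβ (ii j)).2 (β (ii (j + 1))) ⟨α (ii (j + 1)), hcon, (hα _).1.2⟩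
    rw [← hstep j] at h1
    have := hβgt (ii (j + 1))
    omega
  · intro j x y hx h
    rw [hstep]
    exact (hβ (ii j)).2 y ⟨x, hx, h⟩
  · intro j
    show α (ii (j + 2 * J)) = α (ii j) + _
    rw [hshift, hmul α hαL]

end Pool.Agent.Q86.TG
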