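import Pool.Agent.Q86.TG.Walk

set_option autoImplicit false

namespace Pool.Agent.Q86.TG

open Pool.Agent.Q181.TG Matrix Filter Topology

/-- the elements of the relation group -/
theorem mem_Qr {X : Type} [Finite X] (σ : Equiv.Perm X) {E : Type} [AddCommGroup E] (ξ η : E)
    (y : X → E) : y ∈ Qr X σ ξ η ↔ ∃ c : X → ℤ, ∀ x, y x = c x • ξ + c (σ.symm x) • η := by
  classical
  have := Fintype.ofFinite X
  constructor
  · intro h
    refine AddSubgroup.closure_induction (p := fun y _ => ∃ c : X → ℤ, ∀ x, y x = c x • ξ + c (σ.symm x) • η)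
      ?_ ?_ ?_ ?_ h
    · rintro _ ⟨x, rfl⟩
      refine ⟨Pi.single x 1, fun z => ?_⟩
      simp only [Pi.add_apply, Pi.single_apply, Equiv.symm_apply_eq, ite_smul, one_smul, zero_smul]
    · exact ⟨0, fun x => by simp⟩
    · rintro a b - - ⟨c, hc⟩ ⟨d, hd⟩
      refine ⟨c + d, fun x => ?_⟩
      rw [Pi.add_apply, hc, hd, Pi.add_apply, Pi.add_apply, add_smul, add_smul]
      abel
    · rintro a - ⟨c, hc⟩
      refine ⟨-c, fun x => ?_⟩
      rw [Pi.neg_apply, hc, Pi.neg_apply, Pi.neg_apply, neg_smul, neg_smul]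
      abel
  · rintro ⟨c, hc⟩
    have : y = ∑ x, c x • (Pi.single x ξ + Pi.single (σ x) η : X → E) := by
      funext z
      rw [hc, Finset.sum_apply]
      simp only [Pi.smul_apply, Pi.add_apply, smul_add, Finset.sum_add_distrib]
      congr 1
      · rw [Finset.sum_eq_single z]
        · simp
        · intro b _ hb
          simp [Pi.single_apply, Ne.symm hb]
        · simp
      · rw [Finset.sum_eq_single (σ.symm z)]
        · simp
        · intro b _ hb
          have : z ≠ σ b := fun h => hb (by rw [h, Equiv.symm_apply_apply])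
          simp [Pi.single_apply, this]
        · simp
    rw [this]
    refine AddSubgroup.sum_mem _ fun x _ => AddSubgroup.zsmul_mem _ ?_ _
    refine AddSubgroup.subset_closure ⟨x, ?_⟩
    congr <;> exact Subsingleton.elim _ _

theorem mem_Qr_zmod (m : ℕ) [NeZero m] {E : Type} [AddCommGroup E] (ξ η : E)
    (y : ZMod m → E) : y ∈ Qr (ZMod m) (fun j => j + 1) ξ η ↔
      ∃ c : ZMod m → ℤ, ∀ j, y j = c j • ξ + c (j - 1) • η := by
  have h := mem_Qr (Equiv.addRight (1 : ZMod m)) ξ η y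
  simp only [Equiv.addRight_symm, Equiv.coe_addRight, ← sub_eq_add_neg] at h
  exact h

/-- the relation of the walks -/
def Lam (N : ℕ) {r : ℕ} (ξ η : Fin r → ℤ) : AddSubgroup (ZMod N × ZMod N) where
  carrier := {p | ∀ i, p.2 * (ξ i : ZMod N) + p.1 * (η i : ZMod N) = 0}
  add_mem' := by
    intro a b ha hb i
    have h1 := ha i
    have h2 := hb i
    simp only [Prod.fst_add, Prod.snd_add]
    linear_combination h1 + h2
  zero_mem' := by
    intro i
    simp
  neg_mem' := by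
    intro a ha i
    have h1 := ha i
    simp only [Prod.fst_neg, Prod.snd_neg]
    linear_combination -h1

theorem tm_eq {r : ℕ} (ξ η : Fin r → ℤ) (N : ℕ) [NeZero N]
    (hind : ∀ a b : ℤ, a • ξ + b • η = 0 → a = 0 ∧ b = 0)
    (hN : ∀ (k p q : ℤ) (y : Fin r → ℤ), k • y = p • ξ + q • η → k ∣ N * p ∧ k ∣ N * q)
    (m : ℕ) [NeZero m] : tm ξ η m = Nat.card (Cw (Lam N ξ η) m) := by
  have hN0 : (N : ℤ) ≠ 0 := by exact_mod_cast (NeZero.ne N)
  -- integrality of the quotient by `N`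
  have hdiv : ∀ (x y : ℤ) (i : Fin r), (x : ZMod N) * (ξ i : ZMod N) + (y : ZMod N) * (η i : ZMod N) = 0 →
      ∃ z : ℤ, N * z = x * ξ i + y * η i := by
    intro x y i h
    have h2 : ((x * ξ i + y * η i : ℤ) : ZMod N) = 0 := by push_cast; exact h
    obtain ⟨z, hz⟩ := (ZMod.intCast_zmod_eq_zero_iff_dvd _ _).1 h2
    exact ⟨z, hz.symm⟩
  have hval : ∀ x : ZMod N, (((x.val : ℕ) : ℤ) : ZMod N) = x := by
    intro x
    rw [Int.cast_natCast, ZMod.natCast_zmod_val]
  have hy : ∀ c : Cw (Lam N ξ η) m, ∃ y : ZMod m → Fin r → ℤ,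
      ∀ j, (N : ℤ) • y j = ((c.1 j).val : ℤ) • ξ + ((c.1 (j - 1)).val : ℤ) • η := by
    intro c
    have h1 : ∀ (j : ZMod m) (i : Fin r), ∃ z : ℤ,
        N * z = ((c.1 j).val : ℤ) * ξ i + ((c.1 (j - 1)).val : ℤ) * η i := by
      intro j i
      apply hdiv
      rw [hval, hval]
      have := c.2 (j - 1) i
      simp only [sub_add_cancel] at this
      exact this
    choose z hz using h1
    refine ⟨z, fun j => ?_⟩
    funext i
    simp only [Pi.smul_apply, Pi.add_apply, smul_eq_mul]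
    exact hz j i
  choose Y hY using hy
  -- injectivity of `φ`
  have hφ : ∀ a : ZMod m → ℤ, (∀ j, a j • ξ + a (j - 1) • η = 0) → a = 0 := by
    intro a ha
    funext j
    exact (hind _ _ (ha j)).1
  have hNinj : ∀ v : Fin r → ℤ, (N : ℤ) • v = 0 → v = 0 := by
    intro v hv
    funext i
    have := congrFun hv i
    simp only [Pi.smul_apply, smul_eq_mul, Pi.zero_apply] at this ⊢
    exact (mul_eq_zero.1 this).resolve_left hN0
  have htor : ∀ c : Cw (Lam N ξ η) m,
      (QuotientAddGroup.mk (Y c) : Qt (ZMod m) (fun j => j + 1) ξ η) ∈ AddCommGroup.torsion _ := by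
    intro c
    show IsOfFinAddOrder _
    rw [isOfFinAddOrder_iff_nsmul_eq_zero]
    refine ⟨N, Nat.pos_of_ne_zero (NeZero.ne N), ?_⟩
    rw [← QuotientAddGroup.mk_nsmul, QuotientAddGroup.eq_zero_iff, mem_Qr_zmod]
    refine ⟨fun j => ((c.1 j).val : ℤ), fun j => ?_⟩
    rw [← hY c j, Pi.smul_apply, natCast_zsmul]
  symm
  refine Nat.card_eq_of_bijective (fun c => (⟨_, htor c⟩ : AddCommGroup.torsion _)) ⟨?_, ?_⟩
  · intro c d hcd
    have h1 : (QuotientAddGroup.mk (Y c) : Qt (ZMod m) (fun j => j + 1) ξ η) = QuotientAddGroup.mk (Y d) :=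
      congrArg Subtype.val hcd
    rw [QuotientAddGroup.eq, mem_Qr_zmod] at h1
    obtain ⟨e, he⟩ := h1
    have h2 : (fun j => ((d.1 j).val : ℤ) - ((c.1 j).val : ℤ) - N * e j) = 0 := by
      apply hφ
      intro j
      have h3 := he j
      rw [Pi.add_apply, Pi.neg_apply] at h3
      have h4 : (N : ℤ) • (-(Y c) j + (Y d) j) = (N : ℤ) • (e j • ξ + e (j - 1) • η) := by rw [h3]
      rw [smul_add, smul_neg, hY, hY] at h4
      simp only [sub_smul, mul_smul]
      rw [smul_add] at h4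
      have h5 := sub_eq_zero.2 h4
      rw [← h5]
      abel
    apply Subtype.ext
    funext j
    have h3 := congrFun h2 j
    simp only [Pi.zero_apply] at h3
    have h4 : (((d.1 j).val : ℤ) : ZMod N) - (((c.1 j).val : ℤ) : ZMod N) - (N : ZMod N) * (e j : ZMod N) = 0 := by
      exact_mod_cast congrArg (Int.cast : ℤ → ZMod N) h3
    rw [hval, hval, ZMod.natCast_self, zero_mul, sub_zero] at h4
    exact (sub_eq_zero.1 h4).symm
  · rintro ⟨x, hx⟩
    obtain ⟨y, rfl⟩ := QuotientAddGroup.mk_surjective x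
    have h1 : IsOfFinAddOrder (QuotientAddGroup.mk y : Qt (ZMod m) (fun j => j + 1) ξ η) := hx
    rw [isOfFinAddOrder_iff_nsmul_eq_zero] at h1
    obtain ⟨k, hk, h1⟩ := h1
    rw [← QuotientAddGroup.mk_nsmul, QuotientAddGroup.eq_zero_iff, mem_Qr_zmod] at h1
    obtain ⟨q, hq⟩ := h1
    have hk0 : (k : ℤ) ≠ 0 := by exact_mod_cast hk.ne'
    have h2 : ∀ j, (k : ℤ) • y j = q j • ξ + q (j - 1) • η := by
      intro j
      rw [← hq j, Pi.smul_apply, natCast_zsmul]
    have h3 : ∀ j, ∃ c : ℤ, N * q j = k * c := by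
      intro j
      exact (hN k (q j) (q (j - 1)) (y j) (h2 j)).1
    choose c hc using h3
    have h4 : ∀ j, (N : ℤ) • y j = c j • ξ + c (j - 1) • η := by
      intro j
      have h5 : (k : ℤ) • ((N : ℤ) • y j) = (k : ℤ) • (c j • ξ + c (j - 1) • η) := by
        rw [smul_comm, h2 j, smul_add, smul_add, smul_smul, smul_smul, smul_smul, smul_smul, hc, hc]
      funext i
      have h6 := congrFun h5 i
      simp only [Pi.smul_apply, smul_eq_mul, Pi.add_apply] at h6 ⊢
      exact mul_left_cancel₀ hk0 h6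
    have hcw : ∀ j, (((c j : ℤ) : ZMod N), ((c (j + 1) : ℤ) : ZMod N)) ∈ Lam N ξ η := by
      intro j i
      have h5 := congrFun (h4 (j + 1)) i
      simp only [Pi.smul_apply, smul_eq_mul, Pi.add_apply, add_sub_cancel_right] at h5
      have h6 : ((N : ZMod N)) * ((y (j + 1) i : ℤ) : ZMod N) =
          ((c (j + 1) : ℤ) : ZMod N) * (ξ i : ZMod N) + ((c j : ℤ) : ZMod N) * (η i : ZMod N) := by
        exact_mod_cast congrArg (Int.cast : ℤ → ZMod N) h5
      rw [ZMod.natCast_self, zero_mul] at h6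
      exact h6.symm
    refine ⟨⟨fun j => ((c j : ℤ) : ZMod N), hcw⟩, ?_⟩
    apply Subtype.ext
    show (QuotientAddGroup.mk _ : Qt (ZMod m) (fun j => j + 1) ξ η) = QuotientAddGroup.mk y
    rw [QuotientAddGroup.eq, mem_Qr_zmod]
    have h5 : ∀ j, ∃ e : ℤ, c j - ((((c j : ℤ) : ZMod N)).val : ℤ) = N * e := by
      intro j
      have : ((c j - ((((c j : ℤ) : ZMod N)).val : ℤ) : ℤ) : ZMod N) = 0 := by
        rw [Int.cast_sub, hval, sub_self]
      exact (ZMod.intCast_zmod_eq_zero_iff_dvd _ _).1 this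
    choose e he using h5
    refine ⟨e, fun j => ?_⟩
    rw [← sub_eq_zero]
    apply hNinj
    rw [smul_sub, Pi.add_apply, Pi.neg_apply, smul_add, smul_neg, hY, h4, smul_add, smul_smul,
      smul_smul, ← he, ← he]
    simp only [sub_smul]
    abel

theorem t_g1 : S_walk → S_g1 := by
  intro hw r ξ η hind
  -- a nonzero minor
  obtain ⟨s, t, hst⟩ : ∃ s t, ξ s * η t - ξ t * η s ≠ 0 := by
    by_contra hcon
    push Not at hcon
    have h1 : ∃ s, ξ s ≠ 0 := by
      by_contra h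
      push Not at h
      have : ξ = 0 := funext h
      have h2 := hind 1 0 (by rw [this]; simp)
      exact one_ne_zero h2.1
    obtain ⟨s, hs⟩ := h1
    have h2 := hind (-η s) (ξ s) (by
      funext t
      have := hcon s t
      simp only [Pi.add_apply, Pi.smul_apply, smul_eq_mul, Pi.zero_apply]
      linarith [mul_comm (ξ t) (η s)])
    exact hs h2.2
  set Δ : ℤ := ξ s * η t - ξ t * η s with hΔ
  have : NeZero Δ.natAbs := ⟨Int.natAbs_ne_zero.2 hst⟩
  have hN : ∀ (k p q : ℤ) (y : Fin r → ℤ), k • y = p • ξ + q • η →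
      k ∣ (Δ.natAbs : ℤ) * p ∧ k ∣ (Δ.natAbs : ℤ) * q := by
    intro k p q y h
    have h1 := congrFun h s
    have h2 := congrFun h t
    simp only [Pi.smul_apply, smul_eq_mul, Pi.add_apply] at h1 h2
    have h3 : k ∣ Δ * p := ⟨y s * η t - y t * η s, by rw [hΔ]; linear_combination -(η t) * h1 + (η s) * h2⟩
    have h4 : k ∣ Δ * q := ⟨ξ s * y t - ξ t * y s, by rw [hΔ]; linear_combination -(ξ s) * h2 + (ξ t) * h1⟩
    rcases Int.natAbs_eq Δ with h5 | h5
    · rw [← h5]; exact ⟨h3, h4⟩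
    · have h6 : (Δ.natAbs : ℤ) = -Δ := by linarith
      rw [h6, neg_mul, neg_mul, dvd_neg, dvd_neg]
      exact ⟨h3, h4⟩
  obtain ⟨K, hK, h⟩ := hw (ZMod Δ.natAbs) (Lam Δ.natAbs ξ η)
  refine ⟨K, hK, h.congr' ?_⟩
  filter_upwards [eventually_ge_atTop 1] with m hm
  have : NeZero m := ⟨by omega⟩
  rw [tm_eq ξ η Δ.natAbs hind hN m]

end Pool.Agent.Q86.TG
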