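import Pool.Agent.Q181.TG.Stm4

set_option autoImplicit false

namespace Pool.Agent.Q86.TG

open Pool.Agent.Q181.TG Matrix Filter Topology

/-- a sequence at bounded distance from a linear one -/
theorem lin (f : ℕ → ℝ) (l C : ℝ) (h : ∀ᶠ m : ℕ in atTop, |f m - m * l| ≤ C) :
    Tendsto (fun m : ℕ => f m / m) atTop (𝓝 l) := by
  rw [tendsto_iff_norm_sub_tendsto_zero]
  refine squeeze_zero_norm' ?_ (tendsto_const_div_atTop_nhds_zero_nat C)
  filter_upwards [h, eventually_ge_atTop 1] with m hm h1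
  have h2 : (0 : ℝ) < m := by exact_mod_cast h1
  have h3 : f m / m - l = (f m - m * l) / m := by field_simp
  rw [norm_norm, h3, norm_div, Real.norm_eq_abs, Real.norm_eq_abs, abs_of_pos h2]
  exact div_le_div_of_nonneg_right hm h2.le

section walk

variable {F : Type} [AddCommGroup F]

/-- walks of length `m` -/
def wk (Λ : AddSubgroup (F × F)) (m : ℕ) : AddSubgroup (Fin (m + 1) → F) where
  carrier := {c | ∀ i : Fin m, (c i.castSucc, c i.succ) ∈ Λ}
  add_mem' := by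
    intro a b ha hb i
    exact Λ.add_mem (ha i) (hb i)
  zero_mem' := by
    intro i
    exact Λ.zero_mem
  neg_mem' := by
    intro a ha i
    exact Λ.neg_mem (ha i)

theorem mem_wk (Λ : AddSubgroup (F × F)) (m : ℕ) (c : Fin (m + 1) → F) :
    c ∈ wk Λ m ↔ ∀ i : Fin m, (c i.castSucc, c i.succ) ∈ Λ := Iff.rfl

/-- the number of walks of length `m` which end at `y` -/
noncomputable def nw (Λ : AddSubgroup (F × F)) (m : ℕ) (y : F) : ℕ :=
  Nat.card {c : Fin (m + 1) → F // c ∈ wk Λ m ∧ c (Fin.last m) = y}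

open Classical in
theorem nw_succ [Fintype F] (Λ : AddSubgroup (F × F)) (m : ℕ) (y : F) :
    nw Λ (m + 1) y = ∑ x, if (x, y) ∈ Λ then nw Λ m x else 0 := by
  have e : {c : Fin (m + 1 + 1) → F // c ∈ wk Λ (m + 1) ∧ c (Fin.last (m + 1)) = y} ≃
      Σ x : F, {d : Fin (m + 1) → F // (d ∈ wk Λ m ∧ d (Fin.last m) = x) ∧ (x, y) ∈ Λ} :=
    { toFun := fun c => ⟨c.1 (Fin.last m).castSucc, ⟨Fin.init c.1, ⟨fun i => by
          have := c.2.1 i.castSucc
          rw [Fin.succ_castSucc] at this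
          exact this, rfl⟩, by
          have := c.2.1 (Fin.last m)
          rw [Fin.succ_last, c.2.2] at this
          exact this⟩⟩
      invFun := fun d => ⟨Fin.snoc (α := fun _ => F) d.2.1 y, by
          intro i
          refine Fin.lastCases ?_ ?_ i
          · rw [Fin.succ_last, Fin.snoc_castSucc, Fin.snoc_last, d.2.2.1.2]
            exact d.2.2.2
          · intro j
            rw [Fin.snoc_castSucc, Fin.succ_castSucc, Fin.snoc_castSucc]
            exact d.2.2.1.1 j, by rw [Fin.snoc_last]⟩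
      left_inv := by
        rintro ⟨c, hc, hy⟩
        apply Subtype.ext
        show Fin.snoc (α := fun _ => F) (Fin.init c) y = c
        rw [← hy]
        exact Fin.snoc_init_self c
      right_inv := by
        rintro ⟨x, d, ⟨hd, hx⟩, hy⟩
        subst hx
        have h1 : Fin.init (α := fun _ => F) (Fin.snoc (α := fun _ => F) d y) = d :=
          Fin.init_snoc (α := fun _ => F) y d
        have h2 : Fin.snoc (α := fun _ => F) d y (Fin.last m).castSucc = d (Fin.last m) :=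
          Fin.snoc_castSucc (α := fun _ => F) y d (Fin.last m)
        refine Sigma.ext h2 ?_
        dsimp only
        refine (Subtype.heq_iff_coe_eq ?_).2 h1
        intro z
        rw [h2] }
  rw [nw, Nat.card_congr e, Nat.card_sigma]
  refine Finset.sum_congr rfl fun x _ => ?_
  by_cases h : (x, y) ∈ Λ
  · rw [if_pos h]
    refine Nat.card_congr (Equiv.subtypeEquivRight fun d => ?_)
    simp only [h, and_true]
  · rw [if_neg h]
    have : IsEmpty {d : Fin (m + 1) → F // (d ∈ wk Λ m ∧ d (Fin.last m) = x) ∧ (x, y) ∈ Λ} :=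
      ⟨fun d => h d.2.2⟩
    exact Nat.card_of_isEmpty

theorem nw_zero (Λ : AddSubgroup (F × F)) (y : F) : nw Λ 0 y = 1 := by
  rw [nw, Nat.card_eq_one_iff_unique]
  refine ⟨⟨fun a b => ?_⟩, ⟨⟨fun _ => y, fun i => i.elim0, rfl⟩⟩⟩
  apply Subtype.ext
  funext i
  have : i = Fin.last 0 := Fin.ext (by have := i.2; simp only [Fin.val_last]; omega)
  rw [this, a.2.2, b.2.2]

/-- the end points of the walks of length `m` -/
def Dm (Λ : AddSubgroup (F × F)) : ℕ → AddSubgroup F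
  | 0 => ⊤
  | m + 1 => (((Dm Λ m).prod ⊤) ⊓ Λ).map (AddMonoidHom.snd F F)

theorem mem_Dm_succ (Λ : AddSubgroup (F × F)) (m : ℕ) (y : F) :
    y ∈ Dm Λ (m + 1) ↔ ∃ x ∈ Dm Λ m, (x, y) ∈ Λ := by
  rw [Dm, AddSubgroup.mem_map]
  constructor
  · rintro ⟨⟨x, y'⟩, ⟨h1, h2⟩, rfl⟩
    exact ⟨x, (AddSubgroup.mem_prod.1 h1).1, h2⟩
  · rintro ⟨x, hx, h⟩
    exact ⟨(x, y), ⟨AddSubgroup.mem_prod.2 ⟨hx, trivial⟩, h⟩, rfl⟩

theorem Dm_anti (Λ : AddSubgroup (F × F)) (m : ℕ) : Dm Λ (m + 1) ≤ Dm Λ m := by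
  induction m with
  | zero => exact le_top
  | succ m ih =>
    intro y hy
    rw [mem_Dm_succ] at hy ⊢
    obtain ⟨x, hx, h⟩ := hy
    exact ⟨x, ih hx, h⟩

/-- the number of the predecessors of zero -/
noncomputable def km (Λ : AddSubgroup (F × F)) (D : AddSubgroup F) : ℕ :=
  Nat.card {x : F // x ∈ D ∧ (x, 0) ∈ Λ}

theorem km_pos [Finite F] (Λ : AddSubgroup (F × F)) (D : AddSubgroup F) : 1 ≤ km Λ D := by
  have : Nonempty {x : F // x ∈ D ∧ (x, (0 : F)) ∈ Λ} := ⟨⟨0, D.zero_mem, Λ.zero_mem⟩⟩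
  exact Nat.card_pos

theorem km_coset (Λ : AddSubgroup (F × F)) (D : AddSubgroup F) (x₀ y : F) (h₀ : x₀ ∈ D)
    (h : (x₀, y) ∈ Λ) : Nat.card {x : F // x ∈ D ∧ (x, y) ∈ Λ} = km Λ D := by
  refine Nat.card_congr ((Equiv.subRight x₀).subtypeEquiv fun x => ?_)
  simp only [Equiv.subRight_apply]
  constructor
  · rintro ⟨h1, h2⟩
    refine ⟨D.sub_mem h1 h₀, ?_⟩
    have := Λ.sub_mem h2 h
    simpa using this
  · rintro ⟨h1, h2⟩
    refine ⟨?_, ?_⟩
    · have := D.add_mem h1 h₀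
      simpa using this
    · have := Λ.add_mem h2 h
      simpa using this

/-- the number of the walks which end at zero -/
noncomputable def Nn (Λ : AddSubgroup (F × F)) : ℕ → ℕ
  | 0 => 1
  | m + 1 => Nn Λ m * km Λ (Dm Λ m)

open Classical in
theorem nw_eq [Finite F] (Λ : AddSubgroup (F × F)) (m : ℕ) (y : F) :
    nw Λ m y = if y ∈ Dm Λ m then Nn Λ m else 0 := by
  have := Fintype.ofFinite F
  induction m generalizing y with
  | zero =>
    rw [nw_zero, if_pos (by trivial)]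
    rfl
  | succ m ih =>
    rw [nw_succ]
    have h1 : ∀ x : F, (if (x, y) ∈ Λ then nw Λ m x else 0) =
        if x ∈ Dm Λ m ∧ (x, y) ∈ Λ then Nn Λ m else 0 := by
      intro x
      rw [ih]
      by_cases h1 : (x, y) ∈ Λ <;> by_cases h2 : x ∈ Dm Λ m <;> simp [h1, h2]
    rw [Finset.sum_congr rfl fun x _ => h1 x, ← Finset.sum_filter, Finset.sum_const, smul_eq_mul]
    have h2 : (Finset.univ.filter fun x : F => x ∈ Dm Λ m ∧ (x, y) ∈ Λ).card =
        Nat.card {x : F // x ∈ Dm Λ m ∧ (x, y) ∈ Λ} := by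
      rw [Nat.card_eq_fintype_card, Fintype.card_subtype]
    rw [h2]
    by_cases hy : y ∈ Dm Λ (m + 1)
    · rw [if_pos hy]
      obtain ⟨x₀, hx₀, h⟩ := (mem_Dm_succ Λ m y).1 hy
      rw [km_coset Λ (Dm Λ m) x₀ y hx₀ h, Nn, mul_comm]
    · rw [if_neg hy]
      have : IsEmpty {x : F // x ∈ Dm Λ m ∧ (x, y) ∈ Λ} :=
        ⟨fun x => hy ((mem_Dm_succ Λ m y).2 ⟨x.1, x.2.1, x.2.2⟩)⟩
      rw [Nat.card_of_isEmpty, zero_mul]

theorem Nn_pos [Finite F] (Λ : AddSubgroup (F × F)) (m : ℕ) : 1 ≤ Nn Λ m := by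
  induction m with
  | zero => exact le_refl _
  | succ m ih =>
    rw [Nn]
    exact Nat.mul_pos ih (km_pos Λ _)

theorem Nn_eventually [Finite F] (Λ : AddSubgroup (F × F)) : ∃ (K m₀ : ℕ), 1 ≤ K ∧
    ∀ t, Nn Λ (m₀ + t) = Nn Λ m₀ * K ^ t := by
  have hanti : Antitone (Dm Λ) := antitone_nat_of_succ_le (Dm_anti Λ)
  obtain ⟨m₀, h⟩ := WellFoundedGT.monotone_chain_condition
    (⟨fun n => OrderDual.toDual (Dm Λ n), fun a b hab => hanti hab⟩ : ℕ →o (AddSubgroup F)ᵒᵈ)
  have h' : ∀ t, Dm Λ (m₀ + t) = Dm Λ m₀ := fun t => (h (m₀ + t) (Nat.le_add_right _ _)).symm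
  refine ⟨km Λ (Dm Λ m₀), m₀, km_pos Λ _, fun t => ?_⟩
  induction t with
  | zero => simp
  | succ t ih =>
    show Nn Λ (m₀ + t) * km Λ (Dm Λ (m₀ + t)) = _
    rw [h', ih, pow_succ]
    ring

/-- the number of all walks -/
theorem card_wk [Finite F] (Λ : AddSubgroup (F × F)) (m : ℕ) :
    Nn Λ m ≤ Nat.card (wk Λ m) ∧ Nat.card (wk Λ m) ≤ Nn Λ m * Nat.card F := by
  classical
  have := Fintype.ofFinite F
  have e : wk Λ m ≃ Σ y : F, {c : Fin (m + 1) → F // c ∈ wk Λ m ∧ c (Fin.last m) = y} :=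
    { toFun := fun c => ⟨c.1 (Fin.last m), ⟨c.1, c.2, rfl⟩⟩
      invFun := fun c => ⟨c.2.1, c.2.2.1⟩
      left_inv := fun c => rfl
      right_inv := by
        rintro ⟨y, c, hc, rfl⟩
        rfl }
  have h1 : Nat.card (wk Λ m) = ∑ y, nw Λ m y := by
    rw [Nat.card_congr e, Nat.card_sigma]
    rfl
  rw [h1]
  constructor
  · have h2 : nw Λ m 0 = Nn Λ m := by rw [nw_eq, if_pos (AddSubgroup.zero_mem _)]
    rw [← h2]
    exact Finset.single_le_sum (fun _ _ => Nat.zero_le _) (Finset.mem_univ 0)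
  · calc ∑ y, nw Λ m y ≤ ∑ _y : F, Nn Λ m := by
          refine Finset.sum_le_sum fun y _ => ?_
          rw [nw_eq]
          split_ifs
          · exact le_refl _
          · exact Nat.zero_le _
      _ = Nn Λ m * Nat.card F := by
          rw [Finset.sum_const, Finset.card_univ, smul_eq_mul, Nat.card_eq_fintype_card, mul_comm]

/-- closed walks -/
abbrev Cw (Λ : AddSubgroup (F × F)) (m : ℕ) : Type :=
  {c : ZMod m → F // ∀ j, (c j, c (j + 1)) ∈ Λ}

theorem cw_iff (Λ : AddSubgroup (F × F)) (m : ℕ) (c : Fin (m + 1) → F) :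
    (∀ j : Fin (m + 1), (c j, c (j + 1)) ∈ Λ) ↔ c ∈ wk Λ m ∧ (c (Fin.last m), c 0) ∈ Λ := by
  constructor
  · intro h
    refine ⟨fun i => ?_, ?_⟩
    · have := h i.castSucc
      rwa [Fin.coeSucc_eq_succ] at this
    · have := h (Fin.last m)
      rwa [Fin.last_add_one] at this
  · rintro ⟨h1, h2⟩ j
    refine Fin.lastCases ?_ ?_ j
    · rw [Fin.last_add_one]
      exact h2
    · intro i
      rw [Fin.coeSucc_eq_succ]
      exact h1 i

theorem cw_le [Finite F] (Λ : AddSubgroup (F × F)) (m : ℕ) :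
    Nat.card (Cw Λ (m + 1)) ≤ Nat.card (wk Λ m) := by
  refine Nat.card_le_card_of_injective
    (fun c : Cw Λ (m + 1) => (⟨c.1, ((cw_iff Λ m c.1).1 c.2).1⟩ : wk Λ m)) ?_
  intro a b hab
  exact Subtype.ext (congrArg (fun c : wk Λ m => c.1) hab)

theorem wk_le [Finite F] (Λ : AddSubgroup (F × F)) (m : ℕ) :
    Nat.card (wk Λ m) ≤ Nat.card (F × F) * Nat.card (Cw Λ (m + 1)) := by
  classical
  let en : (Fin (m + 1) → F) → F × F := fun c => (c (Fin.last m), c 0)
  let r : F × F → (Fin (m + 1) → F) := fun p =>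
    if h : ∃ c, c ∈ wk Λ m ∧ en c = p then h.choose else 0
  have hr : ∀ c ∈ wk Λ m, r (en c) ∈ wk Λ m ∧ en (r (en c)) = en c := by
    intro c hc
    have h : ∃ c', c' ∈ wk Λ m ∧ en c' = en c := ⟨c, hc, rfl⟩
    have : r (en c) = h.choose := dif_pos h
    rw [this]
    exact h.choose_spec
  have hcl : ∀ c : wk Λ m, ∀ j : Fin (m + 1), ((c.1 - r (en c.1)) j, (c.1 - r (en c.1)) (j + 1)) ∈ Λ := by
    intro c
    rw [cw_iff]
    obtain ⟨h1, h2⟩ := hr c.1 c.2
    refine ⟨AddSubgroup.sub_mem _ c.2 h1, ?_⟩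
    have h3 : r (en c.1) (Fin.last m) = c.1 (Fin.last m) := congrArg Prod.fst h2
    have h4 : r (en c.1) 0 = c.1 0 := congrArg Prod.snd h2
    rw [Pi.sub_apply, Pi.sub_apply, h3, h4, sub_self, sub_self]
    exact Λ.zero_mem
  have : Finite (Cw Λ (m + 1)) := by
    have : Finite (ZMod (m + 1) → F) := inferInstance
    exact Subtype.finite
  rw [← Nat.card_prod]
  refine Nat.card_le_card_of_injective
    (fun c : wk Λ m => ((en c.1, ⟨c.1 - r (en c.1), hcl c⟩) : (F × F) × Cw Λ (m + 1))) ?_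
  intro a b hab
  have h1 : en a.1 = en b.1 := congrArg Prod.fst hab
  have h2 : a.1 - r (en a.1) = b.1 - r (en b.1) := congrArg (fun p => p.2.1) hab
  rw [h1] at h2
  exact Subtype.ext (sub_left_injective h2)

end walk

theorem t_walk : S_walk := by
  intro F _ _ Λ
  obtain ⟨K, m₀, hK, hN⟩ := Nn_eventually Λ
  refine ⟨K, hK, ?_⟩
  set c : ℝ := Real.log (Nat.card F) with hc
  have hF : 1 ≤ Nat.card F := Nat.card_pos
  refine lin _ _ (|Real.log (Nn Λ m₀) - (m₀ + 1) * Real.log K| + 2 * c) ?_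
  filter_upwards [eventually_ge_atTop (m₀ + 1)] with m hm
  obtain ⟨t, rfl⟩ : ∃ t, m = m₀ + t + 1 := ⟨m - (m₀ + 1), by omega⟩
  set P := Nat.card (Cw Λ (m₀ + t + 1)) with hP
  have h1 : P ≤ Nn Λ (m₀ + t) * Nat.card F := (cw_le Λ _).trans (card_wk Λ _).2
  have h2 : Nn Λ (m₀ + t) ≤ Nat.card F * Nat.card F * P := by
    have := (card_wk Λ (m₀ + t)).1.trans (wk_le Λ _)
    rwa [Nat.card_prod] at this
  have hNp := Nn_pos Λ (m₀ + t)
  have hPp : 1 ≤ P := by
    rcases Nat.eq_zero_or_pos P with h0 | h0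
    · rw [h0] at h2; omega
    · exact h0
  have hNr : (0 : ℝ) < Nn Λ (m₀ + t) := by exact_mod_cast hNp
  have hPr : (0 : ℝ) < P := by exact_mod_cast hPp
  have hFr : (0 : ℝ) < Nat.card F := by exact_mod_cast hF
  have h3 : Real.log P ≤ Real.log (Nn Λ (m₀ + t)) + c := by
    rw [hc, ← Real.log_mul hNr.ne' hFr.ne']
    exact Real.log_le_log hPr (by exact_mod_cast h1)
  have h4 : Real.log (Nn Λ (m₀ + t)) ≤ 2 * c + Real.log P := by
    have : 2 * c + Real.log P = Real.log ((Nat.card F : ℝ) * Nat.card F * P) := by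
      rw [Real.log_mul (by positivity) hPr.ne', Real.log_mul hFr.ne' hFr.ne', hc]
      ring
    rw [this]
    exact Real.log_le_log hNr (by exact_mod_cast h2)
  have h5 : Real.log (Nn Λ (m₀ + t)) = Real.log (Nn Λ m₀) + t * Real.log K := by
    rw [hN]
    push_cast
    have hN0 : (Nn Λ m₀ : ℝ) ≠ 0 := by
      have := Nn_pos Λ m₀
      positivity
    have hK0 : (K : ℝ) ≠ 0 := by positivity
    rw [Real.log_mul hN0 (pow_ne_zero _ hK0), Real.log_pow]
  have h6 : (0 : ℝ) ≤ c := Real.log_nonneg (by exact_mod_cast hF)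
  have h7 : ((m₀ + t + 1 : ℕ) : ℝ) * Real.log K = t * Real.log K + (m₀ + 1) * Real.log K := by
    push_cast; ring
  rw [h7, abs_le]
  have h8 := abs_le.1 (le_refl |Real.log (Nn Λ m₀) - (m₀ + 1) * Real.log K|)
  constructor <;> linarith [h8.1, h8.2]

end Pool.Agent.Q86.TG
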